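import Pool.Agent.Helper19.HV.StC

/-!
# Project HV, module DEX: existence and uniqueness of the differential
-/

set_option autoImplicit false

open scoped TensorProduct

namespace Pool.Agent.Helper19.HV

noncomputable section

open PL

private theorem dex_wd2 (K : Type) [Field K] (hR : R 2 K ≤ AA 2 K) (j : ℕ) :
    R 2 K ≤ LinearMap.ker (pre2 K j) := by
  intro α hα
  have h1 : α ∈ LinearMap.ker (δ2o K) := hR hα
  rw [x1_pre2, LinearMap.mem_ker, LinearMap.comp_apply, LinearMap.mem_ker.1 h1, map_zero]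

private theorem dex_wd3 (K : Type) [Field K] (q : ℕ) (hR : R (q + 3) K ≤ AA (q + 3) K) (j : ℕ) :
    R (q + 3) K ≤ LinearMap.ker (pre3 K q j) := by
  intro α hα
  have h1 : α ∈ LinearMap.ker (δo (R (q + 2) K)) := hR hα
  rw [x1_pre3, LinearMap.mem_ker, LinearMap.comp_apply, LinearMap.mem_ker.1 h1, map_zero]

/-- The differential. -/
private def dexD (K : Type) [Field K] : Dif K
  | 0, _ => 0
  | 1, j => d K 1 j
  | q + 2, j => d K (q + 2) j

private theorem dex_isDif (K : Type) [Field K] (hR : ∀ k, R (k + 2) K ≤ AA (k + 2) K) :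
    IsDif K (dexD K) := by
  constructor
  · intro j x l
    have h := dex_wd2 K (hR 0) j
    have h1 : d K 1 j (sym 2 x ⊗ₜ l) =
        descend (N := ⋀[ℚ]^j (V K) →ₗ[ℚ] ⋀[ℚ]^(j + 2) (V K)) (R 2 K) (pre2 K j) (sym 2 x) l :=
      rfl
    have h2 : descend (N := ⋀[ℚ]^j (V K) →ₗ[ℚ] ⋀[ℚ]^(j + 2) (V K)) (R 2 K) (pre2 K j) (sym 2 x) =
        pre2 K j (Finsupp.single x 1) := by
      unfold descend
      rw [dif_pos h]
      rfl
    change d K 1 j (sym 2 x ⊗ₜ l) = _
    rw [h1, h2]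
    unfold pre2
    rw [Finsupp.linearCombination_single, one_smul]
    rfl
  · intro q j x l
    have h := dex_wd3 K q (hR (q + 1)) j
    have h1 : d K (q + 2) j (sym (q + 3) x ⊗ₜ l) =
        descend (N := ⋀[ℚ]^j (V K) →ₗ[ℚ] B (q + 2) K ⊗[ℚ] ⋀[ℚ]^(j + 1) (V K))
          (R (q + 3) K) (pre3 K q j) (sym (q + 3) x) l := rfl
    have h2 : descend (N := ⋀[ℚ]^j (V K) →ₗ[ℚ] B (q + 2) K ⊗[ℚ] ⋀[ℚ]^(j + 1) (V K))
        (R (q + 3) K) (pre3 K q j) (sym (q + 3) x) = pre3 K q j (Finsupp.single x 1) := by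
      unfold descend
      rw [dif_pos h]
      rfl
    change d K (q + 2) j (sym (q + 3) x ⊗ₜ l) = _
    rw [h1, h2]
    unfold pre3
    rw [Finsupp.linearCombination_single, one_smul]
    rfl

theorem mDEX : sDEX := by
  intro K _ hR
  have h := dex_isDif K hR
  refine ⟨dexD K, h, ?_⟩
  intro e he
  funext k j
  match k with
  | 0 =>
    apply LinearMap.ext
    intro x
    exact Subsingleton.elim (α := PUnit) _ _
  | 1 =>
    exact gext 0 j (N := Γ K 1 (j + 1)) (e 1 j) (dexD K 1 j) fun x l =>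
      (he.two j x l).trans (h.two j x l).symm
  | q + 2 =>
    exact gext (q + 1) j (N := Γ K (q + 2) (j + 1)) (e (q + 2) j) (dexD K (q + 2) j) fun x l =>
      (he.three q j x l).trans (h.three q j x l).symm

end

end Pool.Agent.Helper19.HV
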