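import Pool.Agent.Helper19.HV.Curve
import Pool.Agent.Helper91.PL.A1

/-!
# Project HV, module SPL: the decomposition of `F(t)^* ⊗ ℚ`
-/

set_option autoImplicit false

namespace Pool.Agent.Helper19.HV

noncomputable section

open PL

variable {F : Type} [Field F]

private theorem spl_lift {U : Type} [AddCommGroup U] [Module ℚ U] (g : Polynomial F → U)
    (hg : ∀ P Q : Polynomial F, P ≠ 0 → Q ≠ 0 → g (P * Q) = g P + g Q) :
    ∃ L : V (RatFunc F) →ₗ[ℚ] U,
      (∀ f : RatFunc F, f ≠ 0 → L (lg f) = g f.num - g f.denom) ∧
      ∀ P : Polynomial F, P ≠ 0 → L (lg (algebraMap (Polynomial F) (RatFunc F) P)) = g P := by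
  obtain ⟨L, hL⟩ := exists_lift (F := RatFunc F) (W := U)
    (fun x => g (x : RatFunc F).num - g (x : RatFunc F).denom) (by
      intro x y
      have hx : (x : RatFunc F) ≠ 0 := x.ne_zero
      have hy : (y : RatFunc F) ≠ 0 := y.ne_zero
      have hxy : (x : RatFunc F) * y ≠ 0 := mul_ne_zero hx hy
      have h1 := RatFunc.num_denom_mul (x : RatFunc F) (y : RatFunc F)
      have n1 : (x : RatFunc F).num ≠ 0 := RatFunc.num_ne_zero hx
      have n2 : (y : RatFunc F).num ≠ 0 := RatFunc.num_ne_zero hy
      have n3 : ((x : RatFunc F) * y).num ≠ 0 := RatFunc.num_ne_zero hxy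
      have d1 : (x : RatFunc F).denom ≠ 0 := RatFunc.denom_ne_zero _
      have d2 : (y : RatFunc F).denom ≠ 0 := RatFunc.denom_ne_zero _
      have d3 : ((x : RatFunc F) * y).denom ≠ 0 := RatFunc.denom_ne_zero _
      have h2 := congrArg g h1
      rw [hg _ _ n3 (mul_ne_zero d1 d2), hg _ _ d1 d2, hg _ _ (mul_ne_zero n1 n2) d3,
        hg _ _ n1 n2] at h2
      rw [Units.val_mul]
      have e : g ((x : RatFunc F) * y).num =
          g (x : RatFunc F).num + g (y : RatFunc F).num + g ((x : RatFunc F) * y).denom -
          (g (x : RatFunc F).denom + g (y : RatFunc F).denom) := by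
        rw [← h2]
        abel
      rw [e]
      abel)
  have h1 : ∀ f : RatFunc F, f ≠ 0 → L (lg f) = g f.num - g f.denom := by
    intro f hf
    exact hL (Units.mk0 f hf)
  refine ⟨L, h1, ?_⟩
  intro P hP
  rw [h1 _ ((map_ne_zero_iff _ (RatFunc.algebraMap_injective F)).2 hP), RatFunc.num_algebraMap,
    RatFunc.denom_algebraMap]
  have h2 := hg 1 1 one_ne_zero one_ne_zero
  rw [mul_one] at h2
  have h3 : g (1 : Polynomial F) = 0 := by
    have h4 : g (1 : Polynomial F) + 0 = g (1 : Polynomial F) + g (1 : Polynomial F) := by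
      rw [add_zero]
      exact h2
    exact (add_left_cancel h4).symm
  rw [h3, sub_zero]

omit [Field F] in
private theorem spl_notMem (s : Multiset F) (a : F) (h : a ∉ s) :
    ((s.map fun b => Finsupp.single b (1 : ℚ)).sum : F →₀ ℚ) a = 0 := by
  induction s using Multiset.induction with
  | empty => simp
  | cons b s ih =>
    rw [Multiset.mem_cons, not_or] at h
    rw [Multiset.map_cons, Multiset.sum_cons, Finsupp.add_apply, ih h.2,
      Finsupp.single_eq_of_ne h.1, add_zero]

private theorem spl_prod (s : Multiset F) :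
    (s.map fun a => Polynomial.X - Polynomial.C a).prod ≠ 0 ∧
    lg (algebraMap (Polynomial F) (RatFunc F)
      (s.map fun a => Polynomial.X - Polynomial.C a).prod) =
      Finsupp.linearCombination ℚ E ((s.map fun b => Finsupp.single b (1 : ℚ)).sum) := by
  induction s using Multiset.induction with
  | empty => simp [lg_one]
  | cons b s ih =>
    have h0 : (Polynomial.X - Polynomial.C b : Polynomial F) ≠ 0 := Polynomial.X_sub_C_ne_zero b
    refine ⟨?_, ?_⟩
    · rw [Multiset.map_cons, Multiset.prod_cons]
      exact mul_ne_zero h0 ih.1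
    · rw [Multiset.map_cons, Multiset.prod_cons, map_mul,
        lg_mul ((map_ne_zero_iff _ (RatFunc.algebraMap_injective F)).2 h0)
          ((map_ne_zero_iff _ (RatFunc.algebraMap_injective F)).2 ih.1), ih.2,
        Multiset.map_cons, Multiset.sum_cons, map_add, Finsupp.linearCombination_single, one_smul,
        map_sub, RatFunc.algebraMap_X, RatFunc.algebraMap_C]
      rfl

theorem mSPL {F : Type} [Field F] [IsAlgClosed F] :
    ∃ (cV : V F →ₗ[ℚ] V (RatFunc F)) (lc : V (RatFunc F) →ₗ[ℚ] V F)
      (od : V (RatFunc F) →ₗ[ℚ] (F →₀ ℚ)), Spl cV lc od := by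
  obtain ⟨cV, hcV⟩ := exists_map (RatFunc.C : F →+* RatFunc F)
  obtain ⟨lc, hlc, hlc'⟩ := spl_lift (F := F) (fun P => lg P.leadingCoeff) (by
    intro P Q hP hQ
    show lg (P * Q).leadingCoeff = _
    rw [Polynomial.leadingCoeff_mul]
    exact lg_mul (Polynomial.leadingCoeff_ne_zero.2 hP) (Polynomial.leadingCoeff_ne_zero.2 hQ))
  obtain ⟨od, hod, hod'⟩ := spl_lift (F := F)
    (fun P => ((P.roots.map fun b => Finsupp.single b (1 : ℚ)).sum : F →₀ ℚ)) (by
    intro P Q hP hQ
    show (((P * Q).roots.map fun b => Finsupp.single b (1 : ℚ)).sum : F →₀ ℚ) = _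
    rw [Polynomial.roots_mul (mul_ne_zero hP hQ), Multiset.map_add, Multiset.sum_add])
  have hX : ∀ a : F, (RatFunc.X - RatFunc.C a : RatFunc F) =
      algebraMap (Polynomial F) (RatFunc F) (Polynomial.X - Polynomial.C a) := by
    intro a
    rw [map_sub, RatFunc.algebraMap_X, RatFunc.algebraMap_C]
  refine ⟨cV, lc, od, ?_⟩
  constructor
  · exact hcV
  · intro c
    by_cases hc : c = 0
    · rw [hc, map_zero, lg_zero, map_zero, lg_zero]
    · rw [← RatFunc.algebraMap_C, hlc' _ (Polynomial.C_ne_zero.2 hc), Polynomial.leadingCoeff_C]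
  · intro a
    show lc (lg (RatFunc.X - RatFunc.C a)) = 0
    rw [hX, hlc' _ (Polynomial.X_sub_C_ne_zero a), Polynomial.leadingCoeff_X_sub_C, lg_one]
  · intro c
    by_cases hc : c = 0
    · rw [hc, map_zero, lg_zero, map_zero]
    · rw [← RatFunc.algebraMap_C, hod' _ (Polynomial.C_ne_zero.2 hc), Polynomial.roots_C,
        Multiset.map_zero, Multiset.sum_zero]
  · intro a
    show od (lg (RatFunc.X - RatFunc.C a)) = _
    rw [hX, hod' _ (Polynomial.X_sub_C_ne_zero a), Polynomial.roots_X_sub_C,
      Multiset.map_singleton, Multiset.sum_singleton]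
  · have key : ∀ P : Polynomial F, P ≠ 0 → lg (algebraMap (Polynomial F) (RatFunc F) P) =
        cV (lc (lg (algebraMap (Polynomial F) (RatFunc F) P))) +
          Finsupp.linearCombination ℚ E
            (od (lg (algebraMap (Polynomial F) (RatFunc F) P))) := by
      intro P hP
      rw [hlc' P hP, hod' P hP, hcV, ← (spl_prod P.roots).2, ← RatFunc.algebraMap_C,
        ← lg_mul ((map_ne_zero_iff _ (RatFunc.algebraMap_injective F)).2
          (Polynomial.C_ne_zero.2 (Polynomial.leadingCoeff_ne_zero.2 hP)))
          ((map_ne_zero_iff _ (RatFunc.algebraMap_injective F)).2 (spl_prod P.roots).1),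
        ← map_mul, ← (IsAlgClosed.splits P).eq_prod_roots]
    have hlin : (LinearMap.id : V (RatFunc F) →ₗ[ℚ] V (RatFunc F)) =
        cV ∘ₗ lc + (Finsupp.linearCombination ℚ E) ∘ₗ od := by
      refine LinearMap.ext_on span_lg ?_
      rintro _ ⟨f, rfl⟩
      show lg f = cV (lc (lg f)) + Finsupp.linearCombination ℚ E (od (lg f))
      by_cases hf : f = 0
      · rw [hf, lg_zero, map_zero, map_zero, map_zero, map_zero, add_zero]
      · have hn : f.num ≠ 0 := RatFunc.num_ne_zero hf
        have hd : f.denom ≠ 0 := RatFunc.denom_ne_zero f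
        have h1 : lg f = lg (algebraMap (Polynomial F) (RatFunc F) f.num) -
            lg (algebraMap (Polynomial F) (RatFunc F) f.denom) := by
          have h2 := lg_mul (x := algebraMap (Polynomial F) (RatFunc F) f.num)
            (y := (algebraMap (Polynomial F) (RatFunc F) f.denom)⁻¹)
            ((map_ne_zero_iff _ (RatFunc.algebraMap_injective F)).2 hn)
            (inv_ne_zero ((map_ne_zero_iff _ (RatFunc.algebraMap_injective F)).2 hd))
          rw [← div_eq_mul_inv, RatFunc.num_div_denom, lg_inv, ← sub_eq_add_neg] at h2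
          exact h2
        have h3 := key _ hn
        have h4 := key _ hd
        rw [h1, map_sub, map_sub, map_sub, map_sub]
        nth_rewrite 1 [h3]
        nth_rewrite 1 [h4]
        abel
    intro v
    exact LinearMap.congr_fun hlin v
  · intro a x hx
    cases x with
    | none => exact Or.inr rfl
    | some f =>
      by_cases hf : f = 0
      · exfalso
        apply hx
        show od (lg f) a = 0
        rw [hf, lg_zero, map_zero]
        rfl
      · by_cases hd : f.denom.eval a = 0
        · right
          simp only [val]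
          rw [if_pos hd]
        · left
          simp only [val]
          rw [if_neg hd]
          have hn : f.num.eval a = 0 := by
            by_contra hn
            apply hx
            show od (lg f) a = 0
            rw [hod f hf, Finsupp.sub_apply, spl_notMem _ a, spl_notMem _ a, sub_zero]
            · intro h
              exact hd (Polynomial.isRoot_of_mem_roots h)
            · intro h
              exact hn (Polynomial.isRoot_of_mem_roots h)
          rw [hn, zero_div]

end

end Pool.Agent.Helper19.HV
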